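import Pool.Agent.Y840.CT.LowF

/-!
# Chen's theorem for five consecutive odd integers

Among `n, n + 2, n + 6, n + 8` a chosen one is prime, another chosen one is a product of at most two
primes, the other two are almost primes, and also the middle number `n + 4` is `3 ^ a 5 ^ b` times an
almost prime. Lower bounds of the expected order in all intervals of length `θ X`, narrow
progressions.
-/

set_option autoImplicit false

open Finset Filter

namespace Pool.Agent.Results.MP_fc51f7_nt.ChenFiveOddNumbers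

/-- the pattern `0, 2, 6, 8` -/
def e (l : Fin 4) : ℕ := ![0, 2, 6, 8] l

/-- `k ≥ 1` is a product of at most `t` primes, all of them larger than `y` -/
def Rough (t : ℕ) (y : ℝ) (k : ℕ) : Prop :=
  0 < k ∧ k.primeFactorsList.length ≤ t ∧ ∀ q : ℕ, q.Prime → q ∣ k → y < q

open Classical in
/-- the integers `n ∈ (A, B]` such that `n + e i` is a prime, `n + e j` is a product of at most two primes,
both `> X ^ (1/9)`, all the `n + e l` are products of at most `t` primes `> X ^ (1/t)`, and, if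
`mid = 1`, also `n + 4` is `3 ^ a 5 ^ b` times such a product -/
noncomputable def N (t X : ℕ) (mid : Fin 2) (i j : Fin 4) (A B : ℕ) : Finset ℕ :=
  (Ioc A B).filter (fun n : ℕ => (n + e i).Prime ∧
    Rough 2 ((X : ℝ) ^ (1 / 9 : ℝ)) (n + e j) ∧
    (∀ l : Fin 4, Rough t ((X : ℝ) ^ (1 / (t : ℝ))) (n + e l)) ∧
    (mid = 1 → ∃ a b m : ℕ, n + 4 = 3 ^ a * 5 ^ b * m ∧ Rough t ((X : ℝ) ^ (1 / (t : ℝ))) m))

/-- the shifts -/
def F (mid : Fin 2) (i : Fin 4) (q : ℕ) : Finset ℤ :=
  (univ.erase i).image (fun l => (e i : ℤ) - e l) ∪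
    (if q = 3 ∨ q = 5 ∨ mid = 0 then ∅ else {(e i : ℤ) - 4})

theorem e_le (l : Fin 4) : e l ≤ 8 := by
  unfold e
  fin_cases l <;> simp

theorem card_F (mid : Fin 2) (i : Fin 4) (q : ℕ) : (F mid i q).card ≤ 3 + (mid : ℕ) := by
  unfold F
  refine (card_union_le _ _).trans (add_le_add ?_ ?_)
  · refine card_image_le.trans ?_
    rw [card_erase_of_mem (mem_univ _), card_univ, Fintype.card_fin]
  · fin_cases mid
    · simp
    · split_ifs <;> simp

theorem mem_F {mid : Fin 2} {i l : Fin 4} (h : l ≠ i) (q : ℕ) : (e i : ℤ) - e l ∈ F mid i q := by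
  unfold F
  apply mem_union_left
  rw [mem_image]
  exact ⟨l, mem_erase.2 ⟨h, mem_univ _⟩, rfl⟩

theorem loc (mid : Fin 2) (i : Fin 4) (q : ℕ) (hq : q.Prime) : Pool.Agent.Y840.CT.rho (F mid i q) q < q := by
  rcases Nat.lt_or_ge q 6 with h6 | h6
  · interval_cases q
    · exact absurd hq (by norm_num)
    · exact absurd hq (by norm_num)
    · fin_cases mid <;> fin_cases i <;> decide
    · fin_cases mid <;> fin_cases i <;> decide
    · exact absurd hq (by norm_num)
    · fin_cases mid <;> fin_cases i <;> decide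
  · unfold Pool.Agent.Y840.CT.rho
    refine lt_of_le_of_lt (card_image_le.trans ((card_insert_le _ _).trans (Nat.add_le_add_right (card_F mid i q) 1))) ?_
    have := mid.2
    omega

theorem sys (mid : Fin 2) {i j : Fin 4} (hij : j ≠ i) {X : ℕ} (hX : 8 ≤ X) :
    Pool.Agent.Y840.CT.SysF (3 + (mid : ℕ)) X (F mid i) ((e i : ℤ) - e j) := by
  have h1 := e_le i
  have h2 := e_le j
  refine ⟨fun q _ => card_F mid i q, ?_, ?_, fun q _ => mem_F hij q, loc mid i⟩
  · intro h
    have h3 : e i = e j := by omega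
    apply hij
    unfold e at h3
    fin_cases i <;> fin_cases j <;> simp_all
  · rw [abs_le]
    constructor <;> omega

theorem sys4 (mid : Fin 2) {i j : Fin 4} (hij : j ≠ i) {X : ℕ} (hX : 8 ≤ X) :
    Pool.Agent.Y840.CT.SysF 4 X (F mid i) ((e i : ℤ) - e j) := by
  have h := sys mid hij hX
  refine ⟨fun q hq => (h.card q hq).trans ?_, h.ne, h.size, h.mem, h.loc⟩
  have := mid.2
  omega

theorem dvd_shift {q n l : ℕ} {i : Fin 4} : (q : ℤ) ∣ (e i : ℤ) - l - ((n + e i : ℕ) : ℤ) ↔ q ∣ n + l := by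
  have h : (e i : ℤ) - l - ((n + e i : ℕ) : ℤ) = -((n + l : ℕ) : ℤ) := by
    push_cast
    ring
  rw [h, dvd_neg, Int.natCast_dvd_natCast]

theorem mem_iff {t X : ℕ} (ht : 1 ≤ t) (hX : 2 ≤ X) {mid : Fin 2} {i j : Fin 4} {A B n : ℕ}
    (hB : B + 8 ≤ X) : n ∈ N t X mid i j A B ↔
      n + e i ∈ Pool.Agent.Y840.CT.GoodF t X (A + e i) (B + e i) (F mid i) ((e i : ℤ) - e j) := by
  classical
  have ht0 : (0 : ℝ) < t := by exact_mod_cast ht
  obtain ⟨y, hy⟩ : ∃ y : ℝ, y = (X : ℝ) ^ (1 / (t : ℝ)) := ⟨_, rfl⟩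
  have hX1 : (1 : ℝ) < X := by exact_mod_cast hX
  have hy1 : 1 < y := by
    rw [hy]
    exact Real.one_lt_rpow hX1 (by positivity)
  have hyt : (X : ℝ) < y ^ (t + 1) := by
    have h3 : y ^ t = X := by
      rw [hy, ← Real.rpow_natCast, ← Real.rpow_mul (by positivity), one_div, inv_mul_cancel₀ ht0.ne',
        Real.rpow_one]
    rw [pow_succ, h3]
    nlinarith
  unfold N Pool.Agent.Y840.CT.GoodF
  rw [mem_filter, mem_filter, mem_Ioc, mem_Ioc, ← hy]
  have habs : ((e i : ℤ) - e j - ((n + e i : ℕ) : ℤ)).natAbs = n + e j := by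
    have h : (e i : ℤ) - e j - ((n + e i : ℕ) : ℤ) = -((n + e j : ℕ) : ℤ) := by
      push_cast
      ring
    rw [h, Int.natAbs_neg, Int.natAbs_natCast]
  constructor
  · rintro ⟨⟨hA, hB'⟩, h1, ⟨h2a, h2b, h2c⟩, h3, h4⟩
    refine ⟨⟨by omega, by omega⟩, h1, (h3 i).2.2 _ h1 dvd_rfl, ⟨?_, ?_, ?_⟩, ?_⟩
    · intro h0
      rw [h0] at habs
      simp at habs
      omega
    · rw [habs]
      exact h2b
    · intro q hq hd
      exact h2c q hq (dvd_shift.1 hd)
    · intro q hq hqy h hh hd
      unfold F at hh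
      rw [mem_union] at hh
      rcases hh with hh | hh
      · rw [mem_image] at hh
        obtain ⟨l, _, rfl⟩ := hh
        have := (h3 l).2.2 q hq (dvd_shift.1 hd)
        linarith
      · split_ifs at hh with h5
        · exact absurd hh (notMem_empty _)
        · rw [mem_singleton] at hh
          subst hh
          push Not at h5
          obtain ⟨h53, h55, hm⟩ := h5
          obtain ⟨a, b, m, h6, h7⟩ := h4 (by
            have := mid.2
            have : (mid : ℕ) ≠ 0 := fun h => hm (Fin.ext h)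
            apply Fin.ext
            show (mid : ℕ) = 1
            omega)
          have h8 : q ∣ n + 4 := (dvd_shift (i := i) (l := 4)).1 (by exact_mod_cast hd)
          rw [h6] at h8
          rcases (hq.dvd_mul).1 h8 with h9 | h9
          · rcases (hq.dvd_mul).1 h9 with h10 | h10
            · exact h53 ((Nat.prime_dvd_prime_iff_eq hq Nat.prime_three).1 (hq.dvd_of_dvd_pow h10))
            · exact h55 ((Nat.prime_dvd_prime_iff_eq hq Nat.prime_five).1 (hq.dvd_of_dvd_pow h10))
          · have := h7.2.2 q hq h9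
            linarith
  · rintro ⟨⟨hA, hB'⟩, h1, h2, ⟨h3a, h3b, h3c⟩, h4⟩
    have hn : A < n ∧ n ≤ B := ⟨by omega, by omega⟩
    have hsz : ∀ l : ℕ, l ≤ 8 → ((n + l : ℕ) : ℝ) ≤ X := by
      intro l hl
      exact_mod_cast (by omega : n + l ≤ X)
    refine ⟨hn, h1, ⟨by omega, ?_, ?_⟩, ?_, ?_⟩
    · rwa [habs] at h3b
    · intro q hq hd
      exact h3c q hq (dvd_shift.2 hd)
    · intro l
      have hsm : ∀ q : ℕ, q.Prime → q ∣ n + e l → y < q := by
        intro q hq hd
        by_cases hli : l = i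
        · subst hli
          rw [(Nat.prime_dvd_prime_iff_eq hq h1).1 hd]
          exact h2
        · by_contra hcon
          push Not at hcon
          exact h4 q hq hcon _ (mem_F hli q) (dvd_shift.2 hd)
      refine ⟨by omega, ?_, hsm⟩
      exact Pool.Agent.Y840.CT.length_le (by omega) hy1.le (hsz _ (e_le l)) hyt hsm
    · intro hm
      obtain ⟨a, m1, hm1, e1⟩ := Nat.exists_eq_pow_mul_and_not_dvd (show n + 4 ≠ 0 by omega) 3 (by norm_num)
      have hm10 : m1 ≠ 0 := by
        rintro rfl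
        simp at hm1
      obtain ⟨b, m, hm2, e2⟩ := Nat.exists_eq_pow_mul_and_not_dvd hm10 5 (by norm_num)
      have e3 : n + 4 = 3 ^ a * 5 ^ b * m := by rw [e1, e2]; ring
      have hm0 : m ≠ 0 := by
        rintro rfl
        simp at hm2
      have hsm : ∀ q : ℕ, q.Prime → q ∣ m → y < q := by
        intro q hq hd
        by_contra hcon
        push Not at hcon
        have hq3 : q ≠ 3 := by
          rintro rfl
          apply hm1
          rw [e2]
          exact Dvd.dvd.mul_left hd _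
        have hq5 : q ≠ 5 := by
          rintro rfl
          exact hm2 hd
        have hmem : (e i : ℤ) - (4 : ℕ) ∈ F mid i q := by
          unfold F
          apply mem_union_right
          rw [if_neg]
          · exact mem_singleton_self _
          · rw [hm]
            push Not
            exact ⟨hq3, hq5, by decide⟩
        refine h4 q hq hcon _ hmem (dvd_shift.2 ?_)
        rw [e3]
        exact Dvd.dvd.mul_left hd _
      refine ⟨a, b, m, e3, Nat.pos_of_ne_zero hm0, ?_, hsm⟩
      refine Pool.Agent.Y840.CT.length_le hm0 hy1.le ?_ hyt hsm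
      refine le_trans ?_ (hsz 4 (by norm_num))
      have : m ≤ n + 4 := Nat.le_of_dvd (by omega) ⟨3 ^ a * 5 ^ b, by rw [e3]; ring⟩
      exact_mod_cast this

theorem N_image {t X : ℕ} (ht : 1 ≤ t) (hX : 2 ≤ X) {mid : Fin 2} {i j : Fin 4} {A B : ℕ}
    (hB : B + 8 ≤ X) : (N t X mid i j A B).image (fun n => n + e i) =
      Pool.Agent.Y840.CT.GoodF t X (A + e i) (B + e i) (F mid i) ((e i : ℤ) - e j) := by
  classical
  ext p
  rw [mem_image]
  constructor
  · rintro ⟨n, hn, rfl⟩
    exact (mem_iff ht hX hB).1 hn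
  · intro hp
    have hp' := hp
    unfold Pool.Agent.Y840.CT.GoodF at hp'
    rw [mem_filter, mem_Ioc] at hp'
    refine ⟨p - e i, ?_, by omega⟩
    rw [mem_iff ht hX hB]
    have : p - e i + e i = p := by omega
    rw [this]
    exact hp

theorem card_N {t X : ℕ} (ht : 1 ≤ t) (hX : 2 ≤ X) {mid : Fin 2} {i j : Fin 4} {A B : ℕ}
    (hB : B + 8 ≤ X) : (N t X mid i j A B).card =
      (Pool.Agent.Y840.CT.GoodF t X (A + e i) (B + e i) (F mid i) ((e i : ℤ) - e j)).card := by
  rw [← N_image ht hX hB, card_image_of_injective _ (add_left_injective _)]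

/-- Let `t`, `c` be suitable absolute constants and `i ≠ j`. (1) For every `θ > 0`, all large `X` and all
intervals `(A, B]` with `B + 8 ≤ X`, `B - A ≥ θ X`, the set `N` has at least `c (B - A) / log ^ 4 X`
elements if `mid = 0`, and at least `c (B - A) / log ^ 5 X` if `mid = 1`. (2) For all `k`, `θ`, `δ` there
is `D` such that moreover every subset of `N` with at least `δ #N` elements contains a `k`-term
progression with difference at most `log ^ D X`. -/
theorem result : ∃ t : ℕ, 1 ≤ t ∧ ∃ c : ℝ, 0 < c ∧ ∀ mid : Fin 2, ∀ i j : Fin 4, i ≠ j →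
    (∀ θ : ℝ, 0 < θ → ∃ X₀ : ℕ, ∀ X : ℕ, X₀ ≤ X → ∀ A B : ℕ, B + 8 ≤ X → θ * X ≤ (B : ℝ) - A →
        c * ((B : ℝ) - A) / Real.log X ^ (4 + (mid : ℕ)) ≤ ((N t X mid i j A B).card : ℝ)) ∧
    (∀ k : ℕ, ∀ θ δ : ℝ, 0 < θ → 0 < δ → ∃ D X₀ : ℕ, ∀ X : ℕ, X₀ ≤ X → ∀ A B : ℕ, B + 8 ≤ X →
      θ * X ≤ (B : ℝ) - A → ∀ S : Finset ℕ, S ⊆ N t X mid i j A B →
        δ * ((N t X mid i j A B).card : ℝ) ≤ S.card →
          ∃ a d : ℕ, 1 ≤ d ∧ (d : ℝ) ≤ Real.log X ^ D ∧ ∀ m < k, a + m * d ∈ S) := by
  classical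
  obtain ⟨t, ht, c, hc, H1, H2⟩ := Pool.Agent.Y840.CT.genF 4
  obtain ⟨c3, hc3, hV3⟩ := Pool.Agent.Y840.CT.VF_low 3
  obtain ⟨c4, hc4, hV4⟩ := Pool.Agent.Y840.CT.VF_low 4
  refine ⟨t, ht, c * min c3 c4, by positivity, ?_⟩
  intro mid i j hij
  have hji : j ≠ i := fun h => hij h.symm
  refine ⟨?_, ?_⟩
  · intro θ hθ
    obtain ⟨X₀, h1⟩ := H1 θ hθ
    refine ⟨max X₀ 8, fun X hX A B hB hAB => ?_⟩
    have hX8 : 8 ≤ X := (le_max_right _ _).trans hX
    have hS := sys4 mid hji hX8
    have hS' := sys mid hji hX8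
    have hei := e_le i
    rw [card_N ht (by omega) hB]
    have hBA : 0 ≤ (B : ℝ) - A := le_trans (by positivity) hAB
    have hlX : 0 < Real.log X := Real.log_pos (by exact_mod_cast (by omega : 1 < X))
    have h2 := h1 X ((le_max_left _ _).trans hX) (F mid i) _ hS (A + e i) (B + e i) (by omega) (by
      push_cast
      linarith)
    have e1 : (((B + e i : ℕ) : ℝ) - ((A + e i : ℕ) : ℝ)) = (B : ℝ) - A := by push_cast; ring
    rw [e1] at h2
    refine le_trans ?_ h2
    have hV : min c3 c4 / Real.log X ^ (4 + (mid : ℕ)) ≤ Pool.Agent.Y840.CT.VF (F mid i) X := by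
      fin_cases mid
      · refine le_trans ?_ (hV3 X (by omega) (F 0 i) (fun q _ => by simpa using card_F 0 i q) (loc 0 i))
        exact div_le_div_of_nonneg_right (min_le_left _ _) (by positivity)
      · refine le_trans ?_ (hV4 X (by omega) (F 1 i) (fun q _ => by simpa using card_F 1 i q) (loc 1 i))
        exact div_le_div_of_nonneg_right (min_le_right _ _) (by positivity)
    calc c * min c3 c4 * ((B : ℝ) - A) / Real.log X ^ (4 + (mid : ℕ)) =
          c * ((B : ℝ) - A) * (min c3 c4 / Real.log X ^ (4 + (mid : ℕ))) := by ring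
      _ ≤ _ := mul_le_mul_of_nonneg_left hV (by positivity)
  · intro k θ δ hθ hδ
    obtain ⟨D, X₀, h1⟩ := H2 k θ δ hθ hδ
    refine ⟨D, max X₀ 8, fun X hX A B hB hAB S hS1 hS2 => ?_⟩
    have hX8 : 8 ≤ X := (le_max_right _ _).trans hX
    have hS := sys4 mid hji hX8
    have hei := e_le i
    obtain ⟨a, d, h2, h3, h4⟩ := h1 X ((le_max_left _ _).trans hX) (F mid i) _ hS (A + e i) (B + e i)
      (by omega) (by
        push_cast
        linarith) (S.image (fun n => n + e i)) (by
        rw [← N_image ht (by omega) hB]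
        exact image_subset_image hS1) (by
        rw [← card_N ht (by omega) hB, card_image_of_injective _ (add_left_injective _)]
        exact hS2)
    rcases Nat.eq_zero_or_pos k with hk | hk
    · subst hk
      exact ⟨a, d, h2, h3, fun m hm => absurd hm (by omega)⟩
    have h5 : ∀ m < k, ∃ n ∈ S, n + e i = a + m * d := by
      intro m hm
      have := h4 m hm
      rw [mem_image] at this
      exact this
    obtain ⟨n0, hn0, hn0'⟩ := h5 0 hk
    refine ⟨a - e i, d, h2, h3, fun m hm => ?_⟩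
    obtain ⟨n, hn, hn'⟩ := h5 m hm
    have : a - e i + m * d = n := by omega
    rw [this]
    exact hn

end Pool.Agent.Results.MP_fc51f7_nt.ChenFiveOddNumbers
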