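import Pool.Agent.Y677.RSZ.FinEx
import Pool.Agent.TH977.PW.Prog

set_option autoImplicit false

/-!
# Narrow arithmetic progressions of good sets of five consecutive odd integers

For odd `n ≠ 3` at least four of `n, n + 2, n + 4, n + 6, n + 8` are prime if and only if `n`, `n + 2`,
`n + 6`, `n + 8` are. Let `R r` be the set of the `n` for which all prime factors of these four numbers
are larger than `n ^ (1 / r)`. For an ARBITRARY subset `A` of `R r`, for example the set of all `n ≠ 3`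
for which the set of five is good, in every short interval all but a small proportion of the expected
number of elements of `A` are terms of `l`-term arithmetic progressions inside `A` with difference at
most `(log X) ^ B`.
-/

namespace Pool.Agent.Results.MP_fc51f7_nt.NarrowProgressions

open Finset Filter
open Pool.Agent.TH977.PW (N)
open Pool.Agent.Y677.RSZ (InProg Outside)

/-- the shape of the quadruplets -/
def H : Finset ℕ := {0, 2, 6, 8}

/-- All prime factors of all `n + h`, `h ∈ H`, are larger than `n ^ (1 / r)`. -/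
def R (r : ℕ) : Set ℕ :=
  {n | ∀ h ∈ H, ∀ q : ℕ, q.Prime → q ∣ n + h → (n : ℝ) ^ (1 / (r : ℝ)) < (q : ℝ)}

/-- The `n` of `R r` for which all `n + h`, `h ∈ H`, have at most `r` prime factors. -/
def P (r : ℕ) : Set ℕ :=
  {n | n ∈ R r ∧ ∀ h ∈ H, (n + h).primeFactorsList.length ≤ r}

/-- no local obstruction -/
lemma adm (p : ℕ) (hp : p.Prime) : ∃ m : ℕ, ∀ h ∈ H, ¬ p ∣ m + h := by
  unfold H
  rcases lt_or_ge p 30 with h30 | h30
  · refine ⟨101, fun h hh hd => ?_⟩
    simp only [mem_insert, mem_singleton] at hh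
    have := (Nat.prime_dvd_prime_iff_eq hp
      (by rcases hh with rfl | rfl | rfl | rfl <;> norm_num)).1 hd
    omega
  · refine ⟨5, fun h hh hd => ?_⟩
    simp only [mem_insert, mem_singleton] at hh
    have := Nat.le_of_dvd (by omega) hd
    omega

/-- a good set of five has its non-prime in the middle -/
lemma good (n : ℕ) (hn3 : n ≠ 3) (ho : Odd n)
    (hg : 4 ≤ (({0, 2, 4, 6, 8} : Finset ℕ).filter (fun h => (n + h).Prime)).card) :
    ∀ h ∈ H, (n + h).Prime := by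
  have hc : (({0, 2, 4, 6, 8} : Finset ℕ).filter (fun h => ¬ (n + h).Prime)).card ≤ 1 := by
    have h1 := Finset.card_filter_add_card_filter_not (s := ({0, 2, 4, 6, 8} : Finset ℕ))
      (fun h => (n + h).Prime)
    have h2 : ({0, 2, 4, 6, 8} : Finset ℕ).card = 5 := by rfl
    omega
  have hbad : ∀ a b : ℕ, a ∈ ({0, 2, 4, 6, 8} : Finset ℕ) → b ∈ ({0, 2, 4, 6, 8} : Finset ℕ) →
      ¬ (n + a).Prime → ¬ (n + b).Prime → a = b := by
    intro a b ha hb h1 h2
    exact Finset.card_le_one.1 hc a (mem_filter.2 ⟨ha, h1⟩) b (mem_filter.2 ⟨hb, h2⟩)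
  have hn1 : n ≠ 1 := by
    rintro rfl
    have := hbad 0 8 (by simp) (by simp) (by norm_num) (by norm_num)
    omega
  have hodd : n % 2 = 1 := Nat.odd_iff.1 ho
  have h3 : ∀ a : ℕ, a ≤ 8 → (n + a) % 3 = 0 → ¬ (n + a).Prime := by
    intro a ha h0 hp
    have := (Nat.prime_dvd_prime_iff_eq Nat.prime_three hp).1 (Nat.dvd_of_mod_eq_zero h0)
    omega
  have hmid : ¬ (n + 4).Prime := by
    have hm : n % 3 = 0 ∨ n % 3 = 1 ∨ n % 3 = 2 := by omega
    rcases hm with hm | hm | hm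
    · exact absurd (hbad 0 6 (by simp) (by simp) (h3 0 (by norm_num) (by omega))
        (h3 6 (by norm_num) (by omega))) (by norm_num)
    · exact absurd (hbad 2 8 (by simp) (by simp) (h3 2 (by norm_num) (by omega))
        (h3 8 (by norm_num) (by omega))) (by norm_num)
    · exact h3 4 (by norm_num) (by omega)
  intro h hh
  by_contra hnp
  simp only [H, mem_insert, mem_singleton] at hh
  have := hbad h 4 (by rcases hh with rfl | rfl | rfl | rfl <;> simp) (by simp) hnp hmid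
  omega

/-- **Narrow progressions of good sets of five consecutive odd integers.** -/
theorem result (θ : ℝ) (hθ : 0 < θ) (hθ1 : θ ≤ 1) :
    ∃ r₀ : ℕ, 2 ≤ r₀ ∧ ∀ r : ℕ, r₀ ≤ r →
      (∀ n : ℕ, n ≠ 3 → Odd n →
        4 ≤ (({0, 2, 4, 6, 8} : Finset ℕ).filter (fun h => (n + h).Prime)).card → n ∈ R r) ∧
      (∃ κ : ℝ, 0 < κ ∧ ∀ᶠ X : ℕ in atTop, ∀ Y : ℕ, (X : ℝ) ^ θ ≤ Y → Y ≤ X →
        κ * Y / Real.log X ^ 4 ≤ N (P r) X (X + Y)) ∧
      (∀ l : ℕ, 2 ≤ l → ∀ ε : ℝ, 0 < ε → ∃ B : ℕ, ∀ᶠ X : ℕ in atTop, ∀ Y : ℕ,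
        (X : ℝ) ^ θ ≤ Y → Y ≤ X → ∀ A : Set ℕ, A ⊆ R r →
          (N (Outside A l (Real.log X ^ B) X (X + Y)) X (X + Y) : ℝ) ≤ ε * Y / Real.log X ^ 4) ∧
      ∀ l : ℕ, ∃ B : ℕ, ∀ᶠ X : ℕ in atTop, ∀ Y : ℕ, (X : ℝ) ^ θ ≤ Y → Y ≤ X →
        ∃ u d : ℕ, 1 ≤ d ∧ (d : ℝ) ≤ Real.log X ^ B ∧
          ∀ i < l, u + i * d ∈ P r ∧ X < u + i * d ∧ u + i * d ≤ X + Y := by
  obtain ⟨r0, hr0, h⟩ := Pool.Agent.Y677.RSZ.narrow_prog H ⟨0, by simp [H]⟩ 1 0 one_pos
    (fun h _ => Nat.coprime_one_right _) adm R P 4 (by rfl)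
    (fun r m _ hm => hm)
    (fun r _ => Eventually.of_forall (fun m _ h1 h2 => ⟨h1, h2⟩)) θ hθ hθ1
  refine ⟨r0, hr0, fun r hr => ⟨?_, (h r hr).1, (h r hr).2,
    Pool.Agent.Y677.RSZ.exists_prog (fun _ hm => hm.1) 4 (h r hr).1 (h r hr).2⟩⟩
  intro n hn3 ho hg h hh q hq hdv
  have hgood := good n hn3 ho hg
  have hn2 : 2 ≤ n := by simpa using (hgood 0 (by simp [H])).two_le
  rw [(Nat.prime_dvd_prime_iff_eq hq (hgood h hh)).1 hdv]
  exact Pool.Agent.TH977.PW.rpow_lt_of_le r n (n + h) (hr0.trans hr) hn2 (by omega)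

end Pool.Agent.Results.MP_fc51f7_nt.NarrowProgressions
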