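import Pool.Agent.Y879.PR.Inst

set_option autoImplicit false

/-!
Five consecutive odd integers `n, n + 2, n + 4, n + 6, n + 8`: a chosen one of `n, n + 2, n + 6, n + 8` is an
ACTUAL prime, and the other three are almost prime. The exact number of such `n` in all long intervals, the same
for all four choices, and the Poisson law of the almost prime quadruplets which follow such an `n`.
-/

namespace Pool.Agent.Results.MP_fc51f7_nt.QuadrupletsAtPrimes

open Finset Filter
open Pool.Agent.Y879.PR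

/-- the four shifts `0, 2, 6, 8` -/
def sh : Fin 4 → ℕ := ![0, 2, 6, 8]

/-- none of `n, n + 2, n + 6, n + 8` has a prime factor `p ≤ N ^ (1 / r)` -/
def Good (N r n : ℕ) : Prop :=
  ∀ p : ℕ, p.Prime → (p : ℝ) ≤ (N : ℝ) ^ (1 / (r : ℝ)) → ∀ i, ¬ p ∣ n + sh i

/-- the exponent: `0` for `p = 2, 3, 5`, otherwise `4` -/
def nu (p : ℕ) : ℕ := if p ∣ 30 then 0 else 4

/-- the density of the good numbers `11 (mod 30)`: the product of `1 - 4 / p` over the primes
`5 < p ≤ N ^ (1 / r)` -/
noncomputable def V (N r : ℕ) : ℝ :=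
  ∏ p ∈ (Icc 1 ⌊(N : ℝ) ^ (1 / (r : ℝ))⌋₊).filter Nat.Prime, (1 - (nu p : ℝ) / p)

/-- `V` divided by the product of `1 - 1 / p` over the primes `p ≤ N ^ (1 / r)` -/
noncomputable def W (N r : ℕ) : ℝ :=
  ∏ p ∈ (Icc 1 ⌊(N : ℝ) ^ (1 / (r : ℝ))⌋₊).filter Nat.Prime, (1 - (nu p : ℝ) / p) / (1 - 1 / (p : ℝ))

open Classical in
/-- the good `n` in `(A, A + L]` for which `n + sh i` is PRIME -/
noncomputable def Pr (N r : ℕ) (i : Fin 4) (A L : ℕ) : Finset ℕ :=
  (Ioc A (A + L)).filter (fun n => (n + sh i).Prime ∧ Good N r n)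

open Classical in
/-- the number of the good numbers in `(n, n + 30 T]` -/
noncomputable def Next (N r T n : ℕ) : ℕ := ((Ioc n (n + 30 * T)).filter (Good N r)).card

lemma next_eq (N r : ℕ) (h : ∀ n, PG qa N r n → n % 30 ∈ ({11} : Finset ℕ)) (T n : ℕ) (hn : Good N r n) :
    Next N r T n = PNext qa 30 N r T n := by
  classical
  have h1 := h n hn
  rw [Finset.mem_singleton] at h1
  unfold Next PNext
  refine congrArg Finset.card ?_
  apply Finset.filter_congr
  intro l _
  constructor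
  · intro hl
    have h2 := h l hl
    rw [Finset.mem_singleton] at h2
    exact ⟨by omega, hl⟩
  · exact fun hl => hl.2

/-- for odd `n > 3` the four primes are `n, n + 2, n + 6, n + 8` -/
lemma all_prime (n : ℕ) (hn3 : 3 < n)
    (hg : 4 ≤ ((Finset.range 5).filter (fun i => Nat.Prime (n + 2 * i))).card) :
    ∀ i, (n + sh i).Prime := by
  have hc : ((Finset.range 5).filter (fun i => ¬ Nat.Prime (n + 2 * i))).card ≤ 1 := by
    have h1 := Finset.card_filter_add_card_filter_not (s := Finset.range 5) (fun i => Nat.Prime (n + 2 * i))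
    rw [Finset.card_range] at h1
    omega
  have hbad : ∀ a b : ℕ, a < 5 → b < 5 → ¬ (n + 2 * a).Prime → ¬ (n + 2 * b).Prime → a = b := by
    intro a b ha hb h1 h2
    exact Finset.card_le_one.1 hc a (mem_filter.2 ⟨mem_range.2 ha, h1⟩) b
      (mem_filter.2 ⟨mem_range.2 hb, h2⟩)
  have h3 : ∀ m : ℕ, 3 < m → 3 ∣ m → ¬ m.Prime := by
    intro m hm hd hp
    have := (Nat.prime_dvd_prime_iff_eq Nat.prime_three hp).1 hd
    omega
  -- 3 divides n + 4
  have h4 : ¬ (n + 2 * 2).Prime := by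
    have hcases : n % 3 = 0 ∨ n % 3 = 1 ∨ n % 3 = 2 := by omega
    rcases hcases with h0 | h0 | h0
    · have a := hbad 0 3 (by norm_num) (by norm_num) (h3 _ (by omega) (by omega)) (h3 _ (by omega) (by omega))
      omega
    · have a := hbad 1 4 (by norm_num) (by norm_num) (h3 _ (by omega) (by omega)) (h3 _ (by omega) (by omega))
      omega
    · exact h3 _ (by omega) (by omega)
  have key : ∀ a : ℕ, a < 5 → a ≠ 2 → (n + 2 * a).Prime := by
    intro a ha ha2
    by_contra hcon
    exact ha2 (hbad a 2 ha (by norm_num) hcon h4)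
  intro i
  fin_cases i
  · exact key 0 (by norm_num) (by norm_num)
  · exact key 1 (by norm_num) (by norm_num)
  · exact key 3 (by norm_num) (by norm_num)
  · exact key 4 (by norm_num) (by norm_num)

/-- **Five consecutive odd integers with an actual prime at a chosen place.** For all `θ > 0`, `0 < δ ≤ 1`,
`0 < ε ≤ 1` and `x₀` there is `r₀` such that for every `r ≥ r₀` and all large `N`: (1) every odd
`n > N ^ (1 / r)` for which at least four of `n, n + 2, n + 4, n + 6, n + 8` are prime is good, and all four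
`n + sh i` are prime; (2) if `n ≤ N` is good, then `n, n + 2, n + 6, n + 8` have at most `r` prime factors;
(3) if `X ≥ N ^ θ`, `L ≥ δ X` and `A + L ≤ X`, then for each of the four `i` the number of the good `n` in
`(A, A + L]` with `n + sh i` PRIME is `(1 + η) (L / 30) W / log X`, `|η| ≤ ε`, and at these `n` the number of
the good numbers in `(n, n + 30 T]` has the Poisson law of mean `T V`, up to `ε`, for all `T` with `T V ≤ x₀`.
-/
theorem result (θ δ : ℝ) (hθ : 0 < θ) (hδ : 0 < δ) (hδ1 : δ ≤ 1) (x₀ ε : ℝ) (hε : 0 < ε) (hε1 : ε ≤ 1) :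
    ∃ r₀ : ℕ, ∀ r : ℕ, r₀ ≤ r → ∃ N₀ : ℕ, ∀ N : ℕ, N₀ ≤ N →
      (∀ n : ℕ, Odd n → (N : ℝ) ^ (1 / (r : ℝ)) < n →
        4 ≤ ((Finset.range 5).filter (fun i => Nat.Prime (n + 2 * i))).card →
        Good N r n ∧ ∀ i, (n + sh i).Prime) ∧
      (∀ n : ℕ, n ≤ N → Good N r n → ∀ i, (n + sh i).primeFactorsList.length ≤ r) ∧
      0 < W N r ∧
      ∀ (i : Fin 4) (X : ℕ), (N : ℝ) ^ θ ≤ X → ∀ A L : ℕ, δ * X ≤ L → A + L ≤ X →
        |((Pr N r i A L).card : ℝ) * Real.log X - L / 30 * W N r| ≤ ε * (L / 30 * W N r) ∧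
        ∀ T : ℕ, T * V N r ≤ x₀ → ∀ B : Finset ℕ,
          |(((Pr N r i A L).filter (fun n => Next N r T n ∈ B)).card : ℝ) -
            (Pr N r i A L).card *
              ∑ j ∈ B, Real.exp (-(T * V N r)) * (T * V N r) ^ j / j.factorial| ≤
            ε * (Pr N r i A L).card := by
  obtain ⟨r0, -, hlaw⟩ := pat_main pat_qa (by simp) θ δ hθ hδ hδ1 x₀ ε hε hε1
  refine ⟨r0, ?_⟩
  intro r hr
  obtain ⟨N0, hN0⟩ := hlaw r hr
  refine ⟨N0, ?_⟩
  intro N hN
  obtain ⟨h1, h2, h3, h4, h5, h6⟩ := hN0 N hN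
  have hV : V N r = PV 30 4 N r := rfl
  have hW : W N r = PW 30 4 N r := rfl
  refine ⟨?_, h1, by rw [hW]; exact h3, ?_⟩
  · intro n _ hn hg
    have hn3 : 3 < n := by
      have : (3 : ℝ) < n := by linarith
      exact_mod_cast this
    have h7 := all_prime n hn3 hg
    exact ⟨h2 n hn h7, h7⟩
  · intro i X hX A L hL hAL
    obtain ⟨h8, h9⟩ := h6 i X hX A L hL hAL
    rw [Finset.card_singleton, Nat.cast_one, one_mul] at h8
    have hPr : Pr N r i A L = PP qa N r i A L := rfl
    rw [hPr, hV, hW]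
    refine ⟨by exact_mod_cast h8, ?_⟩
    intro T hT B
    have h10 : (PP qa N r i A L).filter (fun n => Next N r T n ∈ B) =
        (PP qa N r i A L).filter (fun n => PNext qa 30 N r T n ∈ B) := by
      classical
      apply Finset.filter_congr
      intro n hn
      simp only [PP, Finset.mem_filter] at hn
      rw [next_eq N r h4 T n hn.2.2]
    rw [h10]
    exact h9 T hT B

end Pool.Agent.Results.MP_fc51f7_nt.QuadrupletsAtPrimes
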